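import Pool.Agent.Run7.h159.QFinal
import Pool.Agent.W753.CZ.Crouzeix

set_option autoImplicit false

open Polynomial

namespace Pool.Agent.Results.MP_16d611_an.ScaledQCrouzeix

/-- The `q`-numerical range `W_q(A)` of an `n × n` complex matrix: all `⟨Ax, y⟩` with
`‖x‖ = ‖y‖ = 1` and `⟨x, y⟩ = q`, where `⟨x, y⟩ = ∑ x_i conj(y_i)`. -/
def qRange {n : ℕ} (A : Matrix (Fin n) (Fin n) ℂ) (q : ℂ) : Set ℂ :=
  {w | ∃ x y : Fin n → ℂ, ∑ i, ‖x i‖ ^ 2 = 1 ∧ ∑ i, ‖y i‖ ^ 2 = 1 ∧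
    ∑ i, x i * (starRingEnd ℂ) (y i) = q ∧
    ∑ i, (A.mulVec x) i * (starRingEnd ℂ) (y i) = w}

/-- The scaled `q`-numerical range `Ω_q = W_q(A) / q`. -/
def scaledRange {n : ℕ} (A : Matrix (Fin n) (Fin n) ℂ) (q : ℂ) : Set ℂ :=
  {z | ∃ w ∈ qRange A q, z = w / q}

/-- The operator norm of a matrix, for the Euclidean norm of `ℂ^n`. -/
noncomputable def opNorm {n : ℕ} (B : Matrix (Fin n) (Fin n) ℂ) : ℝ :=
  ‖Matrix.toEuclideanCLM (n := Fin n) (𝕜 := ℂ) B‖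

/-- The constant `c(q) = max (1, 2|q| / (1 + √(1 - |q|²)))`. -/
noncomputable def cConst (q : ℂ) : ℝ :=
  max 1 (2 * ‖q‖ / (1 + Real.sqrt (1 - ‖q‖ ^ 2)))

theorem inner_eq {n : ℕ} (x y : EuclideanSpace ℂ (Fin n)) :
    inner ℂ y x = ∑ i, x i * (starRingEnd ℂ) (y i) := by
  rw [PiLp.inner_apply]
  rfl

theorem norm_one_iff {n : ℕ} (x : EuclideanSpace ℂ (Fin n)) :
    ‖x‖ = 1 ↔ ∑ i, ‖x i‖ ^ 2 = 1 := by
  rw [← EuclideanSpace.norm_sq_eq]
  constructor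
  · intro h; rw [h]; norm_num
  · intro h
    exact (pow_eq_one_iff_of_nonneg (norm_nonneg _) two_ne_zero).mp h

theorem clm_apply {n : ℕ} (A : Matrix (Fin n) (Fin n) ℂ) (x : EuclideanSpace ℂ (Fin n)) (i : Fin n) :
    (Matrix.toEuclideanCLM (n := Fin n) (𝕜 := ℂ) A x) i = (A.mulVec x.ofLp) i := rfl

theorem mem_scaled {n : ℕ} (A : Matrix (Fin n) (Fin n) ℂ) (q : ℂ)
    (x y : EuclideanSpace ℂ (Fin n)) (hx : ‖x‖ = 1) (hy : ‖y‖ = 1) (hxy : inner ℂ y x = q) :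
    inner ℂ y (Matrix.toEuclideanCLM (n := Fin n) (𝕜 := ℂ) A x) / q ∈ scaledRange A q := by
  refine ⟨inner ℂ y (Matrix.toEuclideanCLM (n := Fin n) (𝕜 := ℂ) A x),
    ⟨x.ofLp, y.ofLp, (norm_one_iff x).mp hx, (norm_one_iff y).mp hy, ?_, ?_⟩, rfl⟩
  · rw [← hxy, inner_eq]
  · rw [inner_eq]
    rfl

theorem exists_of_mem {n : ℕ} (A : Matrix (Fin n) (Fin n) ℂ) (q z : ℂ)
    (hz : z ∈ scaledRange A q) : ∃ x y : EuclideanSpace ℂ (Fin n), ‖x‖ = 1 ∧ ‖y‖ = 1 ∧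
      inner ℂ y x = q ∧ z = inner ℂ y (Matrix.toEuclideanCLM (n := Fin n) (𝕜 := ℂ) A x) / q := by
  obtain ⟨w, ⟨x, y, hx, hy, hxy, hw⟩, rfl⟩ := hz
  refine ⟨WithLp.toLp 2 x, WithLp.toLp 2 y, (norm_one_iff _).mpr hx, (norm_one_iff _).mpr hy, ?_, ?_⟩
  · rw [inner_eq]; exact hxy
  · rw [inner_eq, ← hw]; rfl

/-- MP_16d611_an, Q1, positive answer: for every `n ≥ 2`, every `A ∈ M_n(ℂ)`, every `q` with
`0 < |q| ≤ 1` and every polynomial `p`, `‖p(A)‖ ≤ c(q) sup_{Ω_q} |p|`; also for `n = 1` when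
`|q| = 1` (for `n = 1`, `|q| < 1` the range `W_q(A)` is empty). The supremum is over a nonempty
bounded set. -/
theorem result : ∀ (n : ℕ) (A : Matrix (Fin n) (Fin n) ℂ) (q : ℂ) (p : ℂ[X]),
    0 < ‖q‖ → ‖q‖ ≤ 1 → (2 ≤ n ∨ (n = 1 ∧ ‖q‖ = 1)) →
      (scaledRange A q).Nonempty ∧ Bornology.IsBounded (scaledRange A q) ∧
      opNorm (aeval A p) ≤ cConst q * sSup ((fun z => ‖p.eval z‖) '' scaledRange A q) := by
  intro n A q p hq0 hq1 hn
  have hn1 : 1 ≤ n := by rcases hn with h | ⟨h, -⟩ <;> omega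
  have : NeZero n := ⟨by omega⟩
  have hfr : Module.finrank ℂ (EuclideanSpace ℂ (Fin n)) = n := by simp
  have hnt : Nontrivial (EuclideanSpace ℂ (Fin n)) := by infer_instance
  have hqc : q ≠ 0 := norm_pos_iff.mp hq0
  set Ac := Matrix.toEuclideanCLM (n := Fin n) (𝕜 := ℂ) A with hAc
  have hbdd : ∀ z ∈ scaledRange A q, ‖z‖ ≤ ‖Ac‖ / ‖q‖ := by
    intro z hz
    obtain ⟨x, y, hx, hy, -, rfl⟩ := exists_of_mem A q z hz
    rw [norm_div]
    gcongr
    refine (norm_inner_le_norm _ _).trans ?_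
    rw [hy, one_mul]
    have := Ac.le_opNorm x
    rwa [hx, mul_one] at this
  have hne : (scaledRange A q).Nonempty := by
    rcases eq_or_lt_of_le hq1 with h1 | h1
    · obtain ⟨x, hx⟩ := exists_norm_eq (EuclideanSpace ℂ (Fin n)) zero_le_one
      refine ⟨_, mem_scaled A q x ((starRingEnd ℂ) q • x) hx ?_ ?_⟩
      · rw [norm_smul, RCLike.norm_conj, h1, hx, mul_one]
      · rw [inner_smul_left, Complex.conj_conj, inner_self_eq_norm_sq_to_K, hx]; simp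
    · have h2 : 2 ≤ n := by
        rcases hn with h | ⟨-, h⟩
        · exact h
        · exact absurd h h1.ne
      obtain ⟨x, y, hx, hy, hxy⟩ := Run7.h159.QN.exists_pair
        (H := EuclideanSpace ℂ (Fin n)) (by rw [hfr]; exact h2) ‖q‖ (Real.sqrt (1 - ‖q‖ ^ 2))
        (by rw [Real.sq_sqrt (by nlinarith)]; ring)
      refine ⟨_, mem_scaled A q x (((starRingEnd ℂ) q / (‖q‖ : ℂ)) • y) hx ?_ ?_⟩
      · rw [norm_smul, norm_div, RCLike.norm_conj, Complex.norm_real, norm_norm,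
          div_self hq0.ne', hy, mul_one]
      · rw [inner_smul_left, hxy, map_div₀, Complex.conj_conj, Complex.conj_ofReal,
          div_mul_cancel₀ _ (by exact_mod_cast hq0.ne')]
  refine ⟨hne, isBounded_iff_forall_norm_le.mpr ⟨_, hbdd⟩, ?_⟩
  have hba : BddAbove ((fun z => ‖p.eval z‖) '' scaledRange A q) := by
    have hc : IsCompact (Metric.closedBall (0 : ℂ) (‖Ac‖ / ‖q‖)) := isCompact_closedBall _ _
    obtain ⟨C, hC⟩ := hc.exists_bound_of_continuousOn (f := fun z : ℂ => p.eval z) (by fun_prop)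
    refine ⟨C, ?_⟩
    rintro _ ⟨z, hz, rfl⟩
    exact hC z (by simpa using hbdd z hz)
  set M := sSup ((fun z => ‖p.eval z‖) '' scaledRange A q) with hM
  have hMz : ∀ z ∈ scaledRange A q, ‖p.eval z‖ ≤ M := fun z hz => le_csSup hba ⟨z, hz, rfl⟩
  have hM0 : 0 ≤ M := by
    obtain ⟨z, hz⟩ := hne
    exact (norm_nonneg _).trans (hMz z hz)
  have hmat : Matrix.toEuclideanCLM (n := Fin n) (𝕜 := ℂ) (aeval A p) = aeval Ac p :=
    (Polynomial.aeval_algHom_apply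
      ((Matrix.toEuclideanCLM (n := Fin n) (𝕜 := ℂ)).toAlgEquiv.toAlgHom) A p).symm
  unfold opNorm cConst
  rw [hmat]
  rcases eq_or_lt_of_le hq1 with h1 | h1
  · have h2 : ‖aeval Ac p‖ ≤ 2 * M := by
      apply Pool.Agent.W753.CZ.crouzeix_bound Ac p M
      rintro w ⟨x, hx, rfl⟩
      have h3 := mem_scaled A q x ((starRingEnd ℂ) q • x) hx
        (by rw [norm_smul, RCLike.norm_conj, h1, hx, mul_one])
        (by rw [inner_smul_left, Complex.conj_conj, inner_self_eq_norm_sq_to_K, hx]; simp)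
      have h4 := hMz _ h3
      rw [inner_smul_left, Complex.conj_conj, mul_div_cancel_left₀ _ hqc] at h4
      exact h4
    refine h2.trans ?_
    gcongr
    rw [h1]
    refine le_trans ?_ (le_max_right _ _)
    norm_num
  · have h2 : 2 ≤ n := by
      rcases hn with h | ⟨-, h⟩
      · exact h
      · exact absurd h h1.ne
    apply Run7.h159.QN.q_bound (by rw [hfr]; exact h2) Ac ‖q‖ hq0 h1 p M
    intro x y hx hy hxy
    have h3 := mem_scaled A q x (((starRingEnd ℂ) q / (‖q‖ : ℂ)) • y) hx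
      (by rw [norm_smul, norm_div, RCLike.norm_conj, Complex.norm_real, norm_norm,
          div_self hq0.ne', hy, mul_one])
      (by rw [inner_smul_left, hxy, map_div₀, Complex.conj_conj, Complex.conj_ofReal,
          div_mul_cancel₀ _ (by exact_mod_cast hq0.ne')])
    have h4 := hMz _ h3
    rw [inner_smul_left, map_div₀, Complex.conj_conj, Complex.conj_ofReal] at h4
    have h5 : q / (‖q‖ : ℂ) * inner ℂ y ((Matrix.toEuclideanCLM (n := Fin n) (𝕜 := ℂ) A) x) / q =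
        inner ℂ y (Ac x) / (‖q‖ : ℂ) := by
      have : (‖q‖ : ℂ) ≠ 0 := by exact_mod_cast hq0.ne'
      field_simp
      rfl
    rw [h5] at h4
    exact h4

end Pool.Agent.Results.MP_16d611_an.ScaledQCrouzeix
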